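import Pool.Agent.H34.CGS.Stmts

/-!
Row QEW of the board cgs (MP_286349_an): the expectation of the cyclic gradients of words.
-/

set_option autoImplicit false

namespace Pool.CGS

open Pool.CGR

namespace QEWA

theorem cp_eq {α A : Type} [DecidableEq α] [Ring A] [Algebra ℂ A] (x : α → A) (i : α)
    (P : List α →₀ ℂ) : cp x i P = Finsupp.linearCombination ℂ (cg x i) P := rfl

theorem cases_word {m : ℕ} (W : List (Fin m ⊕ Fin m)) :
    (∃ (u v : List (Fin m ⊕ Fin m)) (j : Fin m), W = u ++ Sum.inr j :: v) ∨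
      ∃ a : List (Fin m), W = a.map Sum.inl := by
  induction W with
  | nil => exact Or.inr ⟨[], rfl⟩
  | cons l W ih =>
    rcases l with i | j
    · rcases ih with ⟨u, v, j, rfl⟩ | ⟨a, rfl⟩
      · exact Or.inl ⟨Sum.inl i :: u, v, j, rfl⟩
      · exact Or.inr ⟨i :: a, rfl⟩
    · exact Or.inl ⟨[], W, j, rfl⟩

theorem ev_map {m : ℕ} {A : Type} [CStarAlgebra A] (x S : Fin m → A) (a : List (Fin m)) :
    ev (Sum.elim x S) (a.map Sum.inl) = ev x a := by
  unfold ev
  rw [List.map_map]
  rfl

theorem dv_map (h4 : DVCStmt) {m : ℕ} {A : Type} [CStarAlgebra A] (x S : Fin m → A) (i : Fin m)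
    (h : A) (a : List (Fin m)) :
    dv (Sum.elim x S) (Sum.inl i) h (a.map Sum.inl) = dv x i h a := by
  induction a with
  | nil => rw [List.map_nil, (h4 _ _ _ _ _).1, (h4 _ _ _ _ _).1]
  | cons j a ih =>
    rw [List.map_cons, (h4 _ _ _ _ _).2.1, (h4 _ _ _ _ _).2.1, ih, ev_map]
    simp only [Sum.inl.injEq, Sum.elim_inl]

end QEWA

open QEWA in
theorem qew_thm (h1 : ROTStmt) (h2 : SDCStmt) (h3 : CGTStmt) (h4 : DVCStmt) : QEWStmt := by
  intro m A _ τ hτ x S hS W
  induction hn : W.length using Nat.strong_induction_on generalizing W with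
  | _ n ih =>
    rcases cases_word W with ⟨u, v, j, rfl⟩ | ⟨a, rfl⟩
    · have hQ : ∀ W' : List (Fin m ⊕ Fin m), W'.length < n → ∃ Q : List (Fin m) →₀ ℂ,
          ∀ (i : Fin m) (c : List (Fin m)),
            τ (dv (Sum.elim x S) (Sum.inl i) (ev x c) W') = τ (cp x i Q * ev x c) :=
        fun W' h => ih _ h W' rfl
      choose! Q hQ using hQ
      have hl : (v ++ u).length < n := by
        rw [← hn]
        simp only [List.length_append, List.length_cons]
        omega
      refine ⟨∑ k ∈ Finset.range (v ++ u).length, if (v ++ u)[k]? = some (Sum.inr j) then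
        τ (ev (Sum.elim x S) ((v ++ u).drop (k + 1))) • Q ((v ++ u).take k) +
          τ (ev (Sum.elim x S) ((v ++ u).take k)) • Q ((v ++ u).drop (k + 1)) else 0,
        fun i c => ?_⟩
      have e1 : τ (dv (Sum.elim x S) (Sum.inl i) (ev x c) (u ++ Sum.inr j :: v)) =
          τ (S j * dv (Sum.elim x S) (Sum.inl i) (ev x c) (v ++ u)) := by
        rw [h1 _ _ τ hτ.comm, List.cons_append, (h4 _ _ _ _ _).2.1, if_neg (by simp), zero_add]
        rfl
      rw [e1, h2 m A τ hτ x S hS, cp_eq, map_sum, Finset.sum_mul, map_sum]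
      refine Finset.sum_congr rfl fun k hk => ?_
      have hk' : k < (v ++ u).length := Finset.mem_range.1 hk
      split_ifs with h
      · rw [map_add, map_smul, map_smul, ← cp_eq, ← cp_eq, add_mul, smul_mul_assoc,
          smul_mul_assoc, map_add, map_smul, map_smul, ← hQ, ← hQ, smul_eq_mul, smul_eq_mul,
          mul_comm]
        · rw [List.length_drop]
          omega
        · rw [List.length_take]
          omega
      · rw [map_zero, zero_mul, map_zero]
    · refine ⟨Finsupp.single a 1, fun i c => ?_⟩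
      rw [dv_map h4, ← h3 _ _ τ hτ.comm, cp_eq, Finsupp.linearCombination_single, one_smul]

end Pool.CGS
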